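import Pool.Agent.Helper34.FF.Goals1

/-!
# A4: trichotomy of vertices and propagation along walks
-/

namespace Pool.Agent.Helper75.FF

open Finset Pool.Agent.Helper34.FF
open scoped symmDiff Classical

variable {V F : Type} [Fintype V] [Fintype F] (T : Tri V F)

theorem on_iff (a b : V) (f : F) : T.on s(a, b) f ↔ a ∈ T.tri f ∧ b ∈ T.tri f := by
  unfold Tri.on
  simp

theorem two_on {e : Sym2 V} (he : e ∈ T.G.edgeSet) :
    (univ.filter fun f => T.on e f).card = 2 := by
  induction e using Sym2.ind with
  | _ a b =>
    rw [SimpleGraph.mem_edgeSet] at he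
    rw [← T.two a b he]
    congr 1
    ext f
    simp only [mem_filter, mem_univ, true_and]
    exact on_iff T a b f

theorem card_add {e : Sym2 V} (he : e ∈ T.G.edgeSet) (Y : Finset F) :
    (Y.filter fun f => T.on e f).card + (Yᶜ.filter fun f => T.on e f).card = 2 := by
  rw [← two_on T he, ← card_union_of_disjoint]
  · congr 1
    ext f
    simp only [mem_union, mem_filter, mem_compl, mem_univ, true_and]
    tauto
  · rw [disjoint_left]
    intro f h1 h2
    simp only [mem_filter, mem_compl] at h1 h2
    exact h2.1 h1.1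

theorem bdry_compl (Y : Finset F) : T.bdry Yᶜ = T.bdry Y := by
  ext e
  simp only [Tri.bdry, mem_filter, mem_univ, true_and]
  constructor
  · rintro ⟨he, h⟩
    have := card_add T he Y
    exact ⟨he, by omega⟩
  · rintro ⟨he, h⟩
    have := card_add T he Y
    exact ⟨he, by omega⟩

theorem pf_StmtTri : StmtTri := by
  intro V F _ _ T hT
  -- boundary vertices have faces on both sides
  have h4 : ∀ (Y : Finset F) (v : V), v ∈ T.Vbd Y →
      (∃ f ∈ Y, v ∈ T.tri f) ∧ ∃ f, f ∉ Y ∧ v ∈ T.tri f := by
    intro Y v hv
    simp only [Tri.Vbd, mem_filter, mem_univ, true_and] at hv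
    obtain ⟨e, he, hve⟩ := hv
    simp only [Tri.bdry, mem_filter, mem_univ, true_and] at he
    obtain ⟨heG, hc⟩ := he
    have h2 := card_add T heG Y
    constructor
    · obtain ⟨f, hf⟩ := card_pos.1 (show 0 < (Y.filter fun f => T.on e f).card by omega)
      simp only [mem_filter] at hf
      exact ⟨f, hf.1, hf.2 v hve⟩
    · obtain ⟨f, hf⟩ := card_pos.1 (show 0 < (Yᶜ.filter fun f => T.on e f).card by omega)
      simp only [mem_filter, mem_compl] at hf
      exact ⟨f, hf.1, hf.2 v hve⟩
  have h1 : ∀ (Y : Finset F) (v : V), v ∈ T.Vin Y ∨ v ∈ T.Vbd Y ∨ v ∈ T.Vin Yᶜ := by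
    intro Y v
    by_cases hv : v ∈ T.Vbd Y
    · exact Or.inr (Or.inl hv)
    · have hv' : ∀ e ∈ T.bdry Y, v ∉ e := by
        intro e he hve
        apply hv
        simp only [Tri.Vbd, mem_filter, mem_univ, true_and]
        exact ⟨e, he, hve⟩
      rcases hT.link v Y hv' with h | h
      · left
        simp only [Tri.Vin, mem_filter, mem_univ, true_and]
        exact h
      · right; right
        simp only [Tri.Vin, mem_filter, mem_univ, true_and, mem_compl]
        exact h
  have h2 : ∀ (Y : Finset F) (v : V), v ∈ T.Vin Y → v ∉ T.Vbd Y ∧ v ∉ T.Vin Yᶜ := by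
    intro Y v hv
    simp only [Tri.Vin, mem_filter, mem_univ, true_and] at hv
    constructor
    · intro hb
      obtain ⟨_, f, hf, hvf⟩ := h4 Y v hb
      exact hf (hv f hvf)
    · intro hc
      simp only [Tri.Vin, mem_filter, mem_univ, true_and, mem_compl] at hc
      obtain ⟨f, hf⟩ := hT.face v
      exact hc f hf (hv f hf)
  refine ⟨h1, h2, ?_, h4, ?_⟩
  · intro Y
    unfold Tri.Vbd
    rw [bdry_compl]
  · intro Y k a x y hW hav hx
    obtain ⟨ha0, hak, hadj⟩ := hW
    have key : ∀ i ≤ k, a i ∈ T.Vin Y := by
      intro i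
      induction i with
      | zero =>
        intro _
        rw [ha0]
        exact hx
      | succ i ih =>
        intro hi
        have hv := ih (by omega)
        have hG := hadj i (by omega)
        rcases h1 Y (a (i + 1)) with h | h | h
        · exact h
        · exact absurd h (hav (i + 1) hi)
        · exfalso
          obtain ⟨f, hf⟩ := card_pos.1 (show 0 < (univ.filter fun f =>
            a i ∈ T.tri f ∧ a (i + 1) ∈ T.tri f).card by rw [T.two _ _ hG]; norm_num)
          simp only [mem_filter, mem_univ, true_and] at hf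
          simp only [Tri.Vin, mem_filter, mem_univ, true_and, mem_compl] at hv h
          exact h f hf.2 (hv f hf.1)
    rw [← hak]
    exact key k le_rfl

end Pool.Agent.Helper75.FF
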