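import Pool.Agent.Helper1.FF2.Goals2

/-!
# MP_7cb822_co, packet StmtAcyc: trees are acyclic
-/

namespace Pool.Agent.Helper75.FF

open Finset
open Pool.Agent.Helper34.FF hiding StmtG
open Pool.Agent.Helper1.FF2
open scoped symmDiff Classical

theorem pf_StmtAcyc : StmtAcyc := by
  intro V _ H u P hP Z hE hZ
  by_contra hne
  have hne' : Z.Nonempty := Finset.nonempty_iff_ne_empty.mpr hne
  have key : ∀ e : Sym2 V, ∃ x : V, ∃ i : ℕ, e ∈ Z →
      H.Reachable u x ∧ i < H.dist u x ∧ e = s(P x i, P x (i + 1)) := by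
    intro e
    by_cases he : e ∈ Z
    · obtain ⟨x, hx, hex⟩ := hZ e he
      unfold tE wE at hex
      rw [Finset.mem_image] at hex
      obtain ⟨i, hi, hie⟩ := hex
      exact ⟨x, i, fun _ => ⟨hx, Finset.mem_range.mp hi, hie.symm⟩⟩
    · exact ⟨u, 0, fun h => absurd h he⟩
  choose X I hXI using key
  obtain ⟨e₀, he₀, hmax⟩ := Finset.exists_max_image Z I hne'
  obtain ⟨hr₀, hi₀, hs₀⟩ := hXI e₀ he₀
  have hdy : H.dist u (P (X e₀) (I e₀ + 1)) = I e₀ + 1 := hP.depth _ hr₀ _ (by omega)
  have hfil : (Z.filter fun e => P (X e₀) (I e₀ + 1) ∈ e) = {e₀} := by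
    ext e
    rw [Finset.mem_filter, Finset.mem_singleton]
    constructor
    · rintro ⟨heZ, hye⟩
      obtain ⟨hr, hi, hs⟩ := hXI e heZ
      have hle := hmax e heZ
      rw [hs, Sym2.mem_iff] at hye
      rcases hye with hy | hy
      · have h1 : H.dist u (P (X e) (I e)) = I e := hP.depth _ hr _ (by omega)
        rw [← hy, hdy] at h1
        omega
      · have h1 : H.dist u (P (X e) (I e + 1)) = I e + 1 := hP.depth _ hr _ (by omega)
        rw [← hy, hdy] at h1
        have h2 : I e = I e₀ := by omega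
        rw [h2] at hy hi hs
        have h3 := hP.coh (X e₀) (X e) hr₀ hr (I e₀ + 1) (by omega) (by omega) hy
        have h4 : s(P (X e) (I e₀), P (X e) (I e₀ + 1)) =
            s(P (X e₀) (I e₀), P (X e₀) (I e₀ + 1)) := by
          rw [h3 (I e₀) (by omega), h3 (I e₀ + 1) le_rfl]
        exact hs.trans (h4.trans hs₀.symm)
    · rintro rfl
      refine ⟨he₀, ?_⟩
      have h5 : P (X e) (I e + 1) ∈ s(P (X e) (I e), P (X e) (I e + 1)) :=
        Sym2.mem_mk_right _ _
      generalize P (X e) (I e + 1) = y at hs₀ h5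
      rw [← hs₀] at h5
      exact h5
  have := hE (P (X e₀) (I e₀ + 1))
  rw [hfil, Finset.card_singleton] at this
  exact absurd this (by decide)

end Pool.Agent.Helper75.FF
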