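import Pool.Agent.Helper34.FF.Goals2
import Pool.Agent.Helper22.FF.StmtAlg
import Pool.Agent.Helper77.FF.StmtSub
import Pool.Agent.Helper75.FF.StmtTri

/-!
# MP_7cb822_co, packet StmtMass
-/

namespace Pool.Agent.Helper75.FF

open Finset
open Pool.Agent.Helper34.FF
open scoped symmDiff Classical

theorem pf_StmtMass : StmtMass := by
  intro V F _ _ T hT
  obtain ⟨hAdd, hCompl, hEven, hTwo, hCov, hDisj, hVin⟩ := Pool.Agent.Helper22.FF.pf_StmtAlg V F T
  obtain ⟨hTri, hTri2, hVbdc, hVbdf, hProp⟩ := Pool.Agent.Helper75.FF.pf_StmtTri V F T hT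
  have h1 : ∀ Y, (T.Vbd Y).card ≤ T.len Y := by
    intro Y
    have h := Finset.card_mul_le_card_mul (s := T.Vbd Y) (t := T.bdry Y) (m := 2) (n := 2)
      (fun (v : V) (e : Sym2 V) => v ∈ e) ?_ ?_
    · unfold Tri.len
      omega
    · intro v hv
      unfold Finset.bipartiteAbove
      have h2 := hEven Y v
      have h3 : 0 < ((T.bdry Y).filter fun e => v ∈ e).card := by
        rw [Finset.card_pos]
        unfold Tri.Vbd at hv
        rw [Finset.mem_filter] at hv
        obtain ⟨_, e, he, hve⟩ := hv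
        exact ⟨e, Finset.mem_filter.2 ⟨he, hve⟩⟩
      obtain ⟨k, hk⟩ := h2
      change 2 ≤ ((T.bdry Y).filter fun e => v ∈ e).card
      omega
    · intro e _
      unfold Finset.bipartiteBelow
      induction e using Sym2.ind with
      | _ a b =>
        have h4 : (T.Vbd Y).filter (fun v => v ∈ s(a, b)) ⊆ {a, b} := by
          intro v hv
          rw [Finset.mem_filter, Sym2.mem_iff] at hv
          simpa using hv.2
        exact (Finset.card_le_card h4).trans Finset.card_le_two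
  have hmono : ∀ X Y : Finset F, X ⊆ Y → T.Vin X ⊆ T.Vin Y := by
    intro X Y hXY v hv
    unfold Tri.Vin at hv ⊢
    rw [Finset.mem_filter] at hv ⊢
    exact ⟨hv.1, fun f hf => hXY (hv.2 f hf)⟩
  have hmem : ∀ (X : Finset F) (v : V), v ∈ T.Vin X ↔ ∀ f, v ∈ T.tri f → f ∈ X := by
    intro X v
    unfold Tri.Vin
    rw [Finset.mem_filter]
    exact ⟨fun h => h.2, fun h => ⟨Finset.mem_univ _, h⟩⟩
  refine ⟨h1, fun L => ⟨?_, ?_, ?_, ?_, ?_, ?_⟩⟩
  · intro X Y hXY
    exact Finset.card_le_card (Finset.inter_subset_inter_left (hmono X Y hXY))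
  · intro X
    exact Finset.card_le_card Finset.inter_subset_right
  · intro X Y Z hX
    have hsub : L ∩ T.Vin X ⊆ ((L ∩ T.Vin Y) ∪ (L ∩ T.Vin Z)) ∪ (T.Vbd Y ∪ T.Vbd Z) := by
      intro v hv
      rw [Finset.mem_inter] at hv
      simp only [Finset.mem_union, Finset.mem_inter]
      rcases hTri Y v with hY | hY | hY
      · exact Or.inl (Or.inl ⟨hv.1, hY⟩)
      · exact Or.inr (Or.inl hY)
      · rcases hTri Z v with hZ | hZ | hZ
        · exact Or.inl (Or.inr ⟨hv.1, hZ⟩)
        · exact Or.inr (Or.inr hZ)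
        · exfalso
          obtain ⟨f, hf⟩ := hT.face v
          have ha := (hmem X v).1 hv.2 f hf
          have hb := (hmem Yᶜ v).1 hY f hf
          have hc := (hmem Zᶜ v).1 hZ f hf
          rw [Finset.mem_compl] at hb hc
          rcases Finset.mem_union.1 (hX ha) with h | h
          · exact hb h
          · exact hc h
    have h2 := Finset.card_le_card hsub
    have h3 := Finset.card_union_le ((L ∩ T.Vin Y) ∪ (L ∩ T.Vin Z)) (T.Vbd Y ∪ T.Vbd Z)
    have h4 := Finset.card_union_le (L ∩ T.Vin Y) (L ∩ T.Vin Z)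
    have h5 := Finset.card_union_le (T.Vbd Y) (T.Vbd Z)
    have h6 := h1 Y
    have h7 := h1 Z
    unfold Tri.m
    omega
  · intro X Y hXY
    have hsub : L ∩ T.Vin Y ⊆ ((L ∩ T.Vin X) ∪ (L ∩ T.Vin (Y \ X))) ∪ T.Vbd X := by
      intro v hv
      rw [Finset.mem_inter] at hv
      simp only [Finset.mem_union, Finset.mem_inter]
      rcases hTri X v with hY | hY | hY
      · exact Or.inl (Or.inl ⟨hv.1, hY⟩)
      · exact Or.inr hY
      · refine Or.inl (Or.inr ⟨hv.1, (hmem _ v).2 fun f hf => ?_⟩)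
        have ha := (hmem Y v).1 hv.2 f hf
        have hb := (hmem Xᶜ v).1 hY f hf
        rw [Finset.mem_compl] at hb
        exact Finset.mem_sdiff.2 ⟨ha, hb⟩
    have h2 := Finset.card_le_card hsub
    have h3 := Finset.card_union_le ((L ∩ T.Vin X) ∪ (L ∩ T.Vin (Y \ X))) (T.Vbd X)
    have h4 := Finset.card_union_le (L ∩ T.Vin X) (L ∩ T.Vin (Y \ X))
    have h6 := h1 X
    unfold Tri.m
    omega
  · intro X
    have hsub : L ⊆ ((L ∩ T.Vin X) ∪ (L ∩ T.Vin Xᶜ)) ∪ T.Vbd X := by
      intro v hv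
      simp only [Finset.mem_union, Finset.mem_inter]
      rcases hTri X v with hY | hY | hY
      · exact Or.inl (Or.inl ⟨hv, hY⟩)
      · exact Or.inr hY
      · exact Or.inl (Or.inr ⟨hv, hY⟩)
    have h2 := Finset.card_le_card hsub
    have h3 := Finset.card_union_le ((L ∩ T.Vin X) ∪ (L ∩ T.Vin Xᶜ)) (T.Vbd X)
    have h4 := Finset.card_union_le (L ∩ T.Vin X) (L ∩ T.Vin Xᶜ)
    have h6 := h1 X
    unfold Tri.m
    omega
  · intro X Y
    have h2 := (Pool.Agent.Helper77.FF.pf_StmtSub V F T X Y (fun _ => True)).1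
    have h3 := (Pool.Agent.Helper77.FF.pf_StmtSub V F T X Y (fun _ => True)).2
    simp only [Finset.filter_true] at h2 h3
    have h4 : T.len Xᶜ = T.len X := by unfold Tri.len; rw [hCompl]
    refine ⟨?_, ?_, ?_, h4⟩ <;> unfold Tri.len <;> omega

end Pool.Agent.Helper75.FF
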