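import Pool.Agent.Helper34.FF.Goals4
import Pool.Agent.Helper34.FF.G1

/-!
# MP_7cb822_co, packet StmtLat
-/

namespace Pool.Agent.Helper75.FF

open Finset
open Pool.Agent.Helper34.FF
open scoped symmDiff Classical

theorem pf_StmtLat : StmtLat := by
  intro V F _ _ T hT L e l lam Xa T₁ hAnn X X' hX1 hX2 hXl hX'1 hX'2 hX'l
  have hTri := (pTri V F T hT).1
  have s1 : l ≤ T.len (X ∩ X') :=
    hAnn.sep _ (Finset.subset_inter hX1 hX'1) (Finset.inter_subset_left.trans hX2)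
  have s2 : l ≤ T.len (X ∪ X') :=
    hAnn.sep _ (hX1.trans Finset.subset_union_left) (Finset.union_subset hX2 hX'2)
  have hsub := (pSub V F T X X' (fun _ => True)).1
  simp only [Finset.filter_true] at hsub
  have s3 : T.len (X ∩ X') + T.len (X ∪ X') + 2 * (T.btw (X \ X') (X' \ X)).card =
      T.len X + T.len X' := hsub
  have e1 : T.len (X ∩ X') = l := by omega
  have e2 : T.len (X ∪ X') = l := by omega
  have e3 : T.btw (X \ X') (X' \ X) = ∅ := by
    rw [← Finset.card_eq_zero]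
    omega
  have hdeg : ∀ Y, Xa ⊆ Y → Y ⊆ T₁ → T.len Y = l → ∀ u,
      (u ∈ T.Vbd Y ∧ ((T.bdry Y).filter fun e => u ∈ e).card = 2) ∨
      (u ∉ T.Vbd Y ∧ ((T.bdry Y).filter fun e => u ∈ e).card = 0) := by
    intro Y h1 h2 h3 u
    obtain ⟨c, hc⟩ := hAnn.iso Y h1 h2 h3
    have hfacts := pEnumFacts V F T hT Y l c hc.1
    by_cases hu : u ∈ T.Vbd Y
    · exact Or.inl ⟨hu, hfacts.2.2.2.2.1 u hu⟩
    · refine Or.inr ⟨hu, ?_⟩
      rw [Finset.card_eq_zero, Finset.filter_eq_empty_iff]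
      intro e he hue
      apply hu
      unfold Tri.Vbd
      rw [Finset.mem_filter]
      exact ⟨Finset.mem_univ _, e, he, hue⟩
  have d1 := hdeg X hX1 hX2 hXl
  have d2 := hdeg X' hX'1 hX'2 hX'l
  have d3 := hdeg (X ∩ X') (Finset.subset_inter hX1 hX'1) (Finset.inter_subset_left.trans hX2) e1
  have d4 := hdeg (X ∪ X') (hX1.trans Finset.subset_union_left) (Finset.union_subset hX2 hX'2) e2
  have ca : ∀ u ∈ T.Vbd X, u ∈ T.Vbd X' → u ∈ T.Vbd (X ∩ X') ∧ u ∈ T.Vbd (X ∪ X') := by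
    intro u hu hu'
    have h : ((T.bdry (X ∩ X')).filter fun e => u ∈ e).card +
        ((T.bdry (X ∪ X')).filter fun e => u ∈ e).card +
        2 * ((T.btw (X \ X') (X' \ X)).filter fun e => u ∈ e).card =
        ((T.bdry X).filter fun e => u ∈ e).card + ((T.bdry X').filter fun e => u ∈ e).card := by
      convert (pSub V F T X X' (fun e => u ∈ e)).1
    rw [e3, Finset.filter_empty, Finset.card_empty] at h
    rcases d1 u with ⟨_, h1⟩ | ⟨h1, _⟩
    · rcases d2 u with ⟨_, h2⟩ | ⟨h2, _⟩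
      · rcases d3 u with ⟨h3, h3'⟩ | ⟨h3, h3'⟩
        · rcases d4 u with ⟨h4, h4'⟩ | ⟨h4, h4'⟩
          · exact ⟨h3, h4⟩
          · omega
        · rcases d4 u with ⟨h4, h4'⟩ | ⟨h4, h4'⟩ <;> omega
      · exact absurd hu' h2
    · exact absurd hu h1
  have hvin : ∀ (Y : Finset F) (u : V), u ∈ T.Vin Y → ∀ f, u ∈ T.tri f → f ∈ Y := by
    intro Y u hu
    unfold Tri.Vin at hu
    rw [Finset.mem_filter] at hu
    exact hu.2
  have cb : ∀ u ∈ T.Vbd X, u ∈ T.Vin X' → u ∈ T.Vbd (X ∩ X') := by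
    intro u hu hu'
    unfold Tri.Vbd at hu ⊢
    rw [Finset.mem_filter] at hu ⊢
    obtain ⟨_, e, he, hue⟩ := hu
    refine ⟨Finset.mem_univ _, e, ?_, hue⟩
    unfold Tri.bdry at he ⊢
    rw [Finset.mem_filter] at he ⊢
    refine ⟨he.1, he.2.1, ?_⟩
    rw [← he.2.2]
    congr 1
    ext f
    simp only [Finset.mem_filter, Finset.mem_inter]
    constructor
    · rintro ⟨⟨h1, _⟩, h2⟩
      exact ⟨h1, h2⟩
    · rintro ⟨h1, h2⟩
      exact ⟨⟨h1, hvin X' u hu' f (h2 u hue)⟩, h2⟩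
  have cc : ∀ u ∈ T.Vbd X, u ∈ T.Vin X'ᶜ → u ∈ T.Vbd (X ∪ X') := by
    intro u hu hu'
    unfold Tri.Vbd at hu ⊢
    rw [Finset.mem_filter] at hu ⊢
    obtain ⟨_, e, he, hue⟩ := hu
    refine ⟨Finset.mem_univ _, e, ?_, hue⟩
    unfold Tri.bdry at he ⊢
    rw [Finset.mem_filter] at he ⊢
    refine ⟨he.1, he.2.1, ?_⟩
    rw [← he.2.2]
    congr 1
    ext f
    simp only [Finset.mem_filter, Finset.mem_union]
    constructor
    · rintro ⟨h1 | h1, h2⟩
      · exact ⟨h1, h2⟩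
      · have h3 := hvin _ u hu' f (h2 u hue)
        rw [Finset.mem_compl] at h3
        exact absurd h1 h3
    · rintro ⟨h1, h2⟩
      exact ⟨Or.inl h1, h2⟩
  refine ⟨e1, e2, ?_, ?_⟩
  · intro u hu hnot
    rcases hTri X' u with h | h | h
    · exact cb u hu h
    · exact (ca u hu h).1
    · exact absurd h hnot
  · intro u hu hnot
    rcases hTri X' u with h | h | h
    · exact absurd h hnot
    · exact (ca u hu h).2
    · exact cc u hu h

end Pool.Agent.Helper75.FF
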